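import Pool.Agent.Helper32.AG.Goals

/-!
# AG-MAX: a self-centralizing abelian normal subgroup
-/

set_option autoImplicit false

namespace Pool.Agent.Helper79.AG

universe u

open Pool.Agent.Helper32.AG

/-- The derived series of a subgroup. -/
def ds {Q : Type u} [Group Q] (C : Subgroup Q) : ℕ → Subgroup Q
  | 0 => C
  | n + 1 => ⁅ds C n, ds C n⁆

lemma ds_normal {Q : Type u} [Group Q] (C : Subgroup Q) (hC : C.Normal) :
    ∀ n, (ds C n).Normal
  | 0 => hC
  | n + 1 => by
      haveI := ds_normal C hC n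
      exact Subgroup.commutator_normal _ _

lemma ds_le_derived {Q : Type u} [Group Q] (C : Subgroup Q) :
    ∀ n, ds C n ≤ derivedSeries Q n
  | 0 => le_top
  | n + 1 => by
      rw [derivedSeries_succ]
      exact Subgroup.commutator_mono (ds_le_derived C n) (ds_le_derived C n)

lemma ds_le {Q : Type u} [Group Q] (C : Subgroup Q) (hC : C.Normal) : ∀ n, ds C n ≤ C
  | 0 => le_rfl
  | n + 1 => by
      haveI := ds_normal C hC n
      exact (Subgroup.commutator_le_left _ _).trans (ds_le C hC n)

/-- a nontrivial normal subgroup of a solvable group contains a nontrivial abelian normal one -/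
lemma exists_ab {Q : Type u} [Group Q] (hQ : Group.IsSolvable Q) (C : Subgroup Q) (hC : C.Normal)
    (h0 : C ≠ ⊥) : ∃ B : Subgroup Q, B.Normal ∧ B ≤ C ∧ B ≠ ⊥ ∧ ⁅B, B⁆ = ⊥ := by
  classical
  have h1 : ∃ n, ds C n = ⊥ := by
    obtain ⟨n, hn⟩ := hQ.solvable
    exact ⟨n, le_bot_iff.1 ((ds_le_derived C n).trans hn.le)⟩
  have h2 := Nat.find_spec h1
  have h3 : Nat.find h1 ≠ 0 := by
    intro h
    rw [h] at h2
    exact h0 h2
  obtain ⟨m, hm⟩ := Nat.exists_eq_succ_of_ne_zero h3
  refine ⟨ds C m, ds_normal C hC m, ds_le C hC m, Nat.find_min h1 (by omega), ?_⟩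
  rw [hm] at h2
  exact h2

/-- **MAX.** -/
theorem max (h1 : AgqStmt.{u}) (h2 : AgnStmt.{u}) : MaxStmt.{u} := by
  intro H _ _ hsol hA
  classical
  let S : Set (Subgroup H) := {A | A.Normal ∧ ∀ x ∈ A, ∀ y ∈ A, x * y = y * x}
  have hS : S.Nonempty := by
    refine ⟨⊥, inferInstance, ?_⟩
    intro x hx y hy
    rw [Subgroup.mem_bot] at hx hy
    rw [hx, hy]
  obtain ⟨A, hmax⟩ := S.toFinite.exists_maximal hS
  have hAS : A ∈ S := hmax.prop
  refine ⟨A, hAS.1, hAS.2, ?_⟩
  by_contra hC
  haveI hAn : A.Normal := hAS.1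
  have hCn : (Subgroup.centralizer (A : Set H)).Normal := inferInstance
  have hAC : A ≤ Subgroup.centralizer (A : Set H) := by
    intro x hx
    rw [Subgroup.mem_centralizer_iff]
    intro y hy
    exact hAS.2 y hy x hx
  set π := QuotientGroup.mk' A with hπ
  have hsurj : Function.Surjective π := QuotientGroup.mk'_surjective A
  have hker : π.ker = A := QuotientGroup.ker_mk' A
  have hQ : Group.IsSolvable (H ⧸ A) := Group.isSolvable_of_surjective hsurj
  have hC0 : (Subgroup.centralizer (A : Set H)).map π ≠ ⊥ := by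
    intro h
    rw [Subgroup.map_eq_bot_iff, hker] at h
    exact hC h
  obtain ⟨B, hB1, hB2, hB3, hB4⟩ := exists_ab hQ _ (hCn.map π hsurj) hC0
  have hcn : (B.comap π).Normal := hB1.comap π
  have hAB : A ≤ B.comap π := by
    intro x hx
    rw [Subgroup.mem_comap]
    have : π x = 1 := by
      rw [← MonoidHom.mem_ker, hker]; exact hx
    rw [this]; exact B.one_mem
  have hBC : B.comap π ≤ Subgroup.centralizer (A : Set H) := by
    intro x hx
    rw [Subgroup.mem_comap] at hx
    obtain ⟨y, hy, hyx⟩ := hB2 hx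
    have h3 : y⁻¹ * x ∈ A := by
      rw [← hker, MonoidHom.mem_ker, map_mul, map_inv, hyx, inv_mul_cancel]
    have h4 : x = y * (y⁻¹ * x) := by group
    rw [h4]
    exact mul_mem hy (hAC h3)
  have hcomm : ∀ x ∈ B.comap π, ∀ y ∈ B.comap π, x * y * x⁻¹ * y⁻¹ ∈ A := by
    intro x hx y hy
    rw [Subgroup.mem_comap] at hx hy
    have h3 : π x * π y * (π x)⁻¹ * (π y)⁻¹ ∈ ⁅B, B⁆ := by
      have := Subgroup.commutator_mem_commutator hx hy
      rwa [commutatorElement_def] at this
    rw [hB4, Subgroup.mem_bot] at h3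
    rw [← hker, MonoidHom.mem_ker]
    simpa using h3
  -- the group `B.comap π` is nilpotent
  have hnil : Group.IsNilpotent (B.comap π) := by
    haveI hcc : IsMulCommutative ((B.comap π) ⧸ Subgroup.center (B.comap π)) := by
      refine ⟨⟨?_⟩⟩
      intro a b
      obtain ⟨x, rfl⟩ := QuotientGroup.mk'_surjective _ a
      obtain ⟨y, rfl⟩ := QuotientGroup.mk'_surjective _ b
      rw [← map_mul, ← map_mul]
      simp only [QuotientGroup.mk'_apply]
      rw [QuotientGroup.eq, Subgroup.mem_center_iff]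
      intro g
      have h5 : ((x * y)⁻¹ * (y * x) : B.comap π).1 ∈ A := by
        have := hcomm y.1⁻¹ (inv_mem y.2) x.1⁻¹ (inv_mem x.2)
        have h6 : ((x * y)⁻¹ * (y * x) : B.comap π).1 = y.1⁻¹ * x.1⁻¹ * y.1⁻¹⁻¹ * x.1⁻¹⁻¹ := by
          push_cast
          group
        rw [h6]; exact this
      have h7 := hBC g.2
      rw [Subgroup.mem_centralizer_iff] at h7
      apply Subtype.ext
      have h8 := h7 _ h5
      push_cast at h8 ⊢
      exact h8.symm
    have : Group.IsNilpotent ((B.comap π) ⧸ Subgroup.center (B.comap π)) := by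
      letI : CommGroup ((B.comap π) ⧸ Subgroup.center (B.comap π)) :=
        { (inferInstance : Group _) with mul_comm := fun a b => hcc.is_comm.comm a b }
      exact CommGroup.isNilpotent
    exact Group.of_quotient_center_nilpotent this
  have hab := h2 (B.comap π) hnil (h1.2 (B.comap π) H (B.comap π).subtype
    (Subgroup.subtype_injective _) hA)
  have hBS : B.comap π ∈ S := by
    refine ⟨hcn, fun x hx y hy => ?_⟩
    have := hab ⟨x, hx⟩ ⟨y, hy⟩
    exact congrArg Subtype.val this
  have hle := hmax.le_of_ge hBS hAB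
  apply hB3
  rw [eq_bot_iff]
  intro b hb
  obtain ⟨x, rfl⟩ := hsurj b
  have hx : x ∈ A := hle (by rw [Subgroup.mem_comap]; exact hb)
  rw [← hker, MonoidHom.mem_ker] at hx
  rw [hx]; exact Subgroup.one_mem _

end Pool.Agent.Helper79.AG
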