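import Pool.Agent.Helper79.AG.TWA0

/-!
# AG-TWA, part 2: the abstract statement
-/

set_option autoImplicit false

namespace Pool.Agent.Helper79.AG

universe u v

lemma core {p : ℕ} [Fact p.Prime] {R : Type u} [CommRing R] [Algebra (ZMod p) R] [Finite R]
    {G : Type v} [Group G] [Finite G] (ψ : G →* (R ≃ₐ[ZMod p] R)) (N : Subgroup G)
    (hN : ψ.ker = N) (ι : N →* Rˣ) (hι : Function.Injective ι) (e : Fin 2 → R)
    (ne : ∀ i, e i ≠ 0) (idem : ∀ i, e i * e i = e i) (orth : e 0 * e 1 = 0)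
    (sum : e 0 + e 1 = 1)
    (fld : ∀ i, ∀ x : R, x * e i ≠ 0 → ∃ y : R, x * y * e i = e i)
    (perm : ∀ g i, ∃ j, ψ g (e i) = e j) (trans : ∀ i j, ∃ g, ψ g (e i) = e j) :
    ∃ (a f : ℕ) (M : Subgroup G), 0 < a ∧ 0 < f ∧ Nat.card (R ⧸ An (e 0)) = p ^ a ∧
      N ≤ M ∧ Nat.card G = 2 * Nat.card M ∧ Nat.card M = f * Nat.card N ∧ f ∣ a ^ 2 ∧
      Nat.card N ≤ (p ^ a - 1) ^ 2 ∧ Nat.card N ∣ (p ^ a - 1) ^ 2 ∧
      (∀ x ∈ M, ∀ y ∈ M, x * y * x⁻¹ * y⁻¹ ∈ N) ∧
      (2 ≤ a → f = a ^ 2 → ∃ x y : G, x * y * x⁻¹ * y⁻¹ ∉ N) := by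
  classical
  have hmax : ∀ i, (An (e i)).IsMaximal := fun i => An_max (e i) (ne i) (fld i)
  have hfield : ∀ i, IsField (R ⧸ An (e i)) := fun i =>
    (Ideal.Quotient.maximal_ideal_iff_isField_quotient _).1 (hmax i)
  have hfin : ∀ i, Finite (R ⧸ An (e i)) := fun i =>
    Finite.of_surjective _ (Ideal.Quotient.mk_surjective (I := An (e i)))
  have h01 : e 0 ≠ e 1 := by
    intro h
    apply ne 0
    rw [← idem 0]
    nth_rw 2 [h]
    exact orth
  have he1 : e 1 = 1 - e 0 := by rw [← sum]; ring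
  have he0 : e 0 = 1 - e 1 := by rw [← sum]; ring
  have hsep : ∀ x : R, x * e 0 = 0 → x * e 1 = 0 → x = 0 := by
    intro x h0 h1
    have : x = x * (e 0 + e 1) := by rw [sum, mul_one]
    rw [this, mul_add, h0, h1, add_zero]
  obtain ⟨τ, hτ⟩ := trans 0 1
  have hτ1 : ψ τ (e 1) = e 0 := by
    rw [he1, map_sub, map_one, hτ, ← he0]
  obtain ⟨a, ha0, ha⟩ := card_fld p (R ⧸ An (e 0)) (hfield 0)
  have ha1 : Nat.card (R ⧸ An (e 1)) = p ^ a := by
    rw [← ha]
    exact (Nat.card_congr (Ideal.quotientEquivAlg (An (e 0)) (An (e 1)) (ψ τ)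
      (An_map (ψ τ) (e 0) (e 1) hτ)).toEquiv).symm
  obtain ⟨c0, d0, u0⟩ := aut_fld' p (R ⧸ An (e 0)) (hfield 0) a ha
  obtain ⟨c1, d1, u1⟩ := aut_fld' p (R ⧸ An (e 1)) (hfield 1) a ha1
  -- the subgroup `M`
  let M : Subgroup G := (MulAction.stabilizer (R ≃ₐ[ZMod p] R) (e 0)).comap ψ
  have hM : ∀ g, g ∈ M ↔ ψ g (e 0) = e 0 := fun g => Iff.rfl
  have hM1 : ∀ g, g ∈ M → ψ g (e 1) = e 1 := by
    intro g hg
    rw [he1, map_sub, map_one, (hM g).1 hg]
  have hsw : ∀ g, g ∉ M → ψ g (e 0) = e 1 := by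
    intro g hg
    obtain ⟨j, hj⟩ := perm g 0
    fin_cases j
    · exact absurd hj hg
    · exact hj
  have hidx : M.index = 2 := by
    rw [Subgroup.index_eq_two_iff]
    refine ⟨τ, fun b => ?_⟩
    have hmul : b * τ ∈ M ↔ ψ b (e 1) = e 0 := by
      rw [hM, map_mul, AlgEquiv.mul_apply, hτ]
    by_cases hb : b ∈ M
    · right
      refine ⟨hb, ?_⟩
      rw [hmul, hM1 b hb]
      exact fun h => h01 h.symm
    · left
      refine ⟨?_, hb⟩
      rw [hmul, he1, map_sub, map_one, hsw b hb, ← he0]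
  -- the homomorphism `Φ`
  let Φ : M →* ((R ⧸ An (e 0)) ≃ₐ[ZMod p] (R ⧸ An (e 0))) ×
      ((R ⧸ An (e 1)) ≃ₐ[ZMod p] (R ⧸ An (e 1))) :=
    { toFun := fun g => (ind (e 0) (ψ g) ((hM g).1 g.2), ind (e 1) (ψ g) (hM1 g g.2))
      map_one' := by
        refine Prod.ext ?_ ?_
        · apply AlgEquiv.ext
          intro x
          obtain ⟨x, rfl⟩ := Ideal.Quotient.mk_surjective x
          change Ideal.Quotient.mk (An (e 0)) (ψ ((1 : M) : G) x) =
            Ideal.Quotient.mk (An (e 0)) x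
          rw [Subgroup.coe_one, map_one]
          rfl
        · apply AlgEquiv.ext
          intro x
          obtain ⟨x, rfl⟩ := Ideal.Quotient.mk_surjective x
          change Ideal.Quotient.mk (An (e 1)) (ψ ((1 : M) : G) x) =
            Ideal.Quotient.mk (An (e 1)) x
          rw [Subgroup.coe_one, map_one]
          rfl
      map_mul' := by
        intro g h
        refine Prod.ext ?_ ?_
        · apply AlgEquiv.ext
          intro x
          obtain ⟨x, rfl⟩ := Ideal.Quotient.mk_surjective x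
          change Ideal.Quotient.mk (An (e 0)) (ψ ((g * h : M) : G) x) =
            Ideal.Quotient.mk (An (e 0)) (ψ g (ψ h x))
          rw [Subgroup.coe_mul, map_mul]
          rfl
        · apply AlgEquiv.ext
          intro x
          obtain ⟨x, rfl⟩ := Ideal.Quotient.mk_surjective x
          change Ideal.Quotient.mk (An (e 1)) (ψ ((g * h : M) : G) x) =
            Ideal.Quotient.mk (An (e 1)) (ψ g (ψ h x))
          rw [Subgroup.coe_mul, map_mul]
          rfl }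
  have hΦ0 : ∀ (g : M) (x : R), (Φ g).1 (Ideal.Quotient.mk (An (e 0)) x) =
      Ideal.Quotient.mk (An (e 0)) (ψ g x) := fun g x => rfl
  have hΦ1 : ∀ (g : M) (x : R), (Φ g).2 (Ideal.Quotient.mk (An (e 1)) x) =
      Ideal.Quotient.mk (An (e 1)) (ψ g x) := fun g x => rfl
  have hfix1 : ∀ g : M, (Φ g).2 = 1 → ∀ x : R, (ψ g x - x) * e 1 = 0 := by
    intro g hg x
    have h1 := hΦ1 g x
    rw [hg] at h1
    have h2 : Ideal.Quotient.mk (An (e 1)) x = Ideal.Quotient.mk (An (e 1)) (ψ g x) := h1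
    rw [eq_comm, Ideal.Quotient.eq, mem_An] at h2
    exact h2
  have hfix0 : ∀ g : M, (Φ g).1 = 1 ↔ ∀ x : R, (ψ g x - x) * e 0 = 0 := by
    intro g
    constructor
    · intro hg x
      have h1 := hΦ0 g x
      rw [hg] at h1
      have h2 : Ideal.Quotient.mk (An (e 0)) x = Ideal.Quotient.mk (An (e 0)) (ψ g x) := h1
      rw [eq_comm, Ideal.Quotient.eq, mem_An] at h2
      exact h2
    · intro h
      apply AlgEquiv.ext
      intro x
      obtain ⟨x, rfl⟩ := Ideal.Quotient.mk_surjective x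
      rw [hΦ0]
      change _ = Ideal.Quotient.mk (An (e 0)) x
      rw [Ideal.Quotient.eq, mem_An]
      exact h x
  have hNM : N ≤ M := by
    intro g hg
    rw [← hN, MonoidHom.mem_ker] at hg
    rw [hM, hg]
    rfl
  have hker : Φ.ker = N.subgroupOf M := by
    ext g
    rw [MonoidHom.mem_ker, Subgroup.mem_subgroupOf, ← hN, MonoidHom.mem_ker]
    constructor
    · intro h
      have h1 : (Φ g).1 = 1 := by rw [h]; rfl
      have h2 : (Φ g).2 = 1 := by rw [h]; rfl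
      apply AlgEquiv.ext
      intro x
      exact sub_eq_zero.1 (hsep _ ((hfix0 g).1 h1 x) (hfix1 g h2 x))
    · intro h
      refine Prod.ext ?_ ?_
      · apply AlgEquiv.ext
        intro x
        obtain ⟨x, rfl⟩ := Ideal.Quotient.mk_surjective x
        rw [hΦ0, h]
        rfl
      · apply AlgEquiv.ext
        intro x
        obtain ⟨x, rfl⟩ := Ideal.Quotient.mk_surjective x
        rw [hΦ1, h]
        rfl
  haveI f0 : Finite ((R ⧸ An (e 0)) ≃ₐ[ZMod p] (R ⧸ An (e 0))) :=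
    Nat.finite_of_card_ne_zero (by rw [c0]; omega)
  haveI f1 : Finite ((R ⧸ An (e 1)) ≃ₐ[ZMod p] (R ⧸ An (e 1))) :=
    Nat.finite_of_card_ne_zero (by rw [c1]; omega)
  have hcomm : ∀ s t : ((R ⧸ An (e 0)) ≃ₐ[ZMod p] (R ⧸ An (e 0))) ×
      ((R ⧸ An (e 1)) ≃ₐ[ZMod p] (R ⧸ An (e 1))), s * t = t * s :=
    fun s t => Prod.ext (d0 _ _) (d1 _ _)
  have hcardM : Nat.card M = Nat.card Φ.range * Nat.card N := by
    rw [Subgroup.card_eq_card_quotient_mul_card_subgroup Φ.ker,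
      Nat.card_congr (QuotientGroup.quotientKerEquivRange Φ).toEquiv, hker,
      Nat.card_congr (Subgroup.subgroupOfEquivOfLe hNM).toEquiv]
  have hpa : 2 ≤ p ^ a := by
    calc 2 ≤ p := (Fact.out : p.Prime).two_le
      _ = p ^ 1 := (pow_one p).symm
      _ ≤ p ^ a := Nat.pow_le_pow_right (Fact.out : p.Prime).pos ha0
  have hdvd : Nat.card N ∣ (p ^ a - 1) ^ 2 := by
    let Ψ : Rˣ →* (R ⧸ An (e 0))ˣ × (R ⧸ An (e 1))ˣ :=
      (Units.map (Ideal.Quotient.mk (An (e 0)) : R →* _)).prod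
        (Units.map (Ideal.Quotient.mk (An (e 1)) : R →* _))
    have hΨ : Function.Injective Ψ := by
      intro s t hst
      have h1 : Ideal.Quotient.mk (An (e 0)) (s : R) = Ideal.Quotient.mk (An (e 0)) (t : R) :=
        congrArg Units.val (congrArg Prod.fst hst)
      have h2 : Ideal.Quotient.mk (An (e 1)) (s : R) = Ideal.Quotient.mk (An (e 1)) (t : R) :=
        congrArg Units.val (congrArg Prod.snd hst)
      rw [Ideal.Quotient.eq, mem_An] at h1 h2
      exact Units.ext (sub_eq_zero.1 (hsep _ h1 h2))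
    have h3 := Subgroup.card_dvd_of_injective (Ψ.comp ι) (hΨ.comp hι)
    rw [Nat.card_prod, u0, u1, ← sq] at h3
    exact h3
  refine ⟨a, Nat.card Φ.range, M, ha0, Nat.card_pos, ha, hNM, ?_, hcardM, ?_,
    Nat.le_of_dvd (by have : 0 < p ^ a - 1 := by omega
                      positivity) hdvd, hdvd, ?_, ?_⟩
  · rw [← Subgroup.card_mul_index M, hidx, mul_comm]
  · have h1 := Subgroup.card_subgroup_dvd_card Φ.range
    rw [Nat.card_prod, c0, c1, ← sq] at h1
    exact h1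
  · intro x hx y hy
    have h1 : (⟨x, hx⟩ * ⟨y, hy⟩ * (⟨x, hx⟩ : M)⁻¹ * (⟨y, hy⟩ : M)⁻¹ : M) ∈ Φ.ker := by
      rw [MonoidHom.mem_ker, map_mul, map_mul, map_mul, map_inv, map_inv,
        hcomm (Φ ⟨x, hx⟩) (Φ ⟨y, hy⟩)]
      group
    rw [hker, Subgroup.mem_subgroupOf] at h1
    exact h1
  · intro ha2 hf
    have htop : Φ.range = ⊤ := by
      apply Subgroup.eq_top_of_card_eq
      rw [hf, Nat.card_prod, c0, c1, sq]
    haveI : Nontrivial ((R ⧸ An (e 0)) ≃ₐ[ZMod p] (R ⧸ An (e 0))) := by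
      rw [← Finite.one_lt_card_iff_nontrivial, c0]
      omega
    obtain ⟨φ, hφ⟩ := exists_ne (1 : (R ⧸ An (e 0)) ≃ₐ[ZMod p] (R ⧸ An (e 0)))
    obtain ⟨m, hm⟩ : (φ, 1) ∈ Φ.range := by rw [htop]; exact Subgroup.mem_top _
    refine ⟨τ, m, fun hmem => hφ ?_⟩
    rw [← hN, MonoidHom.mem_ker] at hmem
    have h1 : ψ τ * ψ m * (ψ τ)⁻¹ = ψ m := by
      have : ψ τ * ψ m * (ψ τ)⁻¹ * (ψ m)⁻¹ = 1 := by
        rw [← hmem]; simp only [map_mul, map_inv]
      exact mul_inv_eq_one.1 this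
    have h2 : (Φ m).2 = 1 := by rw [hm]
    have h3 : (Φ m).1 = φ := by rw [hm]
    rw [← h3, hfix0]
    intro x
    have h4 := hfix1 m h2 ((ψ τ)⁻¹ x)
    have h5 := congrArg (ψ τ) h4
    rw [map_zero, map_mul, map_sub, hτ1] at h5
    have h6 : ψ τ (ψ m ((ψ τ)⁻¹ x)) = ψ m x := by
      rw [← AlgEquiv.mul_apply, ← AlgEquiv.mul_apply, h1]
    have h7 : ψ τ ((ψ τ)⁻¹ x) = x := by
      rw [← AlgEquiv.mul_apply, mul_inv_cancel, AlgEquiv.one_apply]
    rw [h6, h7] at h5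
    exact h5

end Pool.Agent.Helper79.AG
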