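import Pool.Agent.Helper32.AG.Goals
import Pool.Agent.Helper79.AG.TWA1

/-!
# AG-TWA: two blocks, structure
-/

set_option autoImplicit false

namespace Pool.Agent.Helper79.AG

universe u

open Pool.Agent.Helper32.AG

section

variable {p : ℕ} [Fact p.Prime] {U : Type u} [AddCommGroup U] [Module (ZMod p) U]

lemma inv_mul_coe (h : U ≃ₗ[ZMod p] U) :
    ((h⁻¹ : U ≃ₗ[ZMod p] U) : Module.End (ZMod p) U) * (h : Module.End (ZMod p) U) = 1 := by
  apply LinearMap.ext
  intro x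
  exact h.symm_apply_apply x

lemma mul_inv_coe (h : U ≃ₗ[ZMod p] U) :
    (h : Module.End (ZMod p) U) * ((h⁻¹ : U ≃ₗ[ZMod p] U) : Module.End (ZMod p) U) = 1 := by
  apply LinearMap.ext
  intro x
  exact h.apply_symm_apply x

lemma coe_mul' (h g : U ≃ₗ[ZMod p] U) : ((h * g : U ≃ₗ[ZMod p] U) : Module.End (ZMod p) U) =
    (h : Module.End (ZMod p) U) * (g : Module.End (ZMod p) U) := rfl

lemma coe_inj {h g : U ≃ₗ[ZMod p] U}
    (e : (h : Module.End (ZMod p) U) = (g : Module.End (ZMod p) U)) : h = g := by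
  apply LinearEquiv.ext
  intro x
  exact LinearMap.congr_fun e x

lemma cj_one (x : Module.End (ZMod p) U) : cj 1 x = x := rfl

lemma cj_mul_left (h g : U ≃ₗ[ZMod p] U) (x : Module.End (ZMod p) U) :
    cj (h * g) x = cj h (cj g x) := rfl

lemma cj_mul (h : U ≃ₗ[ZMod p] U) (x y : Module.End (ZMod p) U) :
    cj h (x * y) = cj h x * cj h y := by
  unfold cj
  calc (h : Module.End (ZMod p) U) * (x * y) * ((h⁻¹ : U ≃ₗ[ZMod p] U) : Module.End (ZMod p) U)
      = (h : Module.End (ZMod p) U) * x * 1 * y *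
        ((h⁻¹ : U ≃ₗ[ZMod p] U) : Module.End (ZMod p) U) := by simp only [mul_assoc, one_mul, mul_one]
    _ = _ := by rw [← inv_mul_coe h]; simp only [mul_assoc]

lemma cj_add (h : U ≃ₗ[ZMod p] U) (x y : Module.End (ZMod p) U) :
    cj h (x + y) = cj h x + cj h y := by
  unfold cj
  rw [mul_add, add_mul]

lemma cj_alg (h : U ≃ₗ[ZMod p] U) (c : ZMod p) :
    cj h (algebraMap (ZMod p) (Module.End (ZMod p) U) c) = algebraMap (ZMod p) _ c := by
  unfold cj
  rw [← Algebra.commutes, mul_assoc, mul_inv_coe, mul_one]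

lemma coe_mem {A : Subgroup (U ≃ₗ[ZMod p] U)} {a : U ≃ₗ[ZMod p] U} (ha : a ∈ A) :
    (a : Module.End (ZMod p) U) ∈ Rg A := Algebra.subset_adjoin ⟨a, ha, rfl⟩

lemma cj_mem {A : Subgroup (U ≃ₗ[ZMod p] U)} (h : U ≃ₗ[ZMod p] U)
    (hA : ∀ a ∈ A, h * a * h⁻¹ ∈ A) (x : Module.End (ZMod p) U) (hx : x ∈ Rg A) :
    cj h x ∈ Rg A := by
  unfold Rg at hx
  induction hx using Algebra.adjoin_induction with
  | mem x hx =>
      obtain ⟨a, ha, rfl⟩ := hx
      exact coe_mem (hA a ha)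
  | algebraMap r =>
      rw [cj_alg]; exact Subalgebra.algebraMap_mem _ _
  | add x y _ _ hx hy => rw [cj_add]; exact add_mem hx hy
  | mul x y _ _ hx hy => rw [cj_mul]; exact mul_mem hx hy

/-- conjugation on `Rg A` -/
noncomputable def ce (A : Subgroup (U ≃ₗ[ZMod p] U)) (h : U ≃ₗ[ZMod p] U)
    (h1 : ∀ x ∈ Rg A, cj h x ∈ Rg A) (h2 : ∀ x ∈ Rg A, cj h⁻¹ x ∈ Rg A) :
    (Rg A) ≃ₐ[ZMod p] (Rg A) where
  toFun x := ⟨cj h x.1, h1 x.1 x.2⟩
  invFun x := ⟨cj h⁻¹ x.1, h2 x.1 x.2⟩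
  left_inv x := by
    apply Subtype.ext
    change cj h⁻¹ (cj h x.1) = x.1
    rw [← cj_mul_left, inv_mul_cancel, cj_one]
  right_inv x := by
    apply Subtype.ext
    change cj h (cj h⁻¹ x.1) = x.1
    rw [← cj_mul_left, mul_inv_cancel, cj_one]
  map_mul' x y := Subtype.ext (cj_mul h x.1 y.1)
  map_add' x y := Subtype.ext (cj_add h x.1 y.1)
  commutes' c := Subtype.ext (cj_alg h c)

end

/-- **TWA.** -/
theorem twa : TwaStmt.{u} := by
  intro p _ U _ _ _ _ H A q e hAH hconj hcomm hcent hD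
  classical
  have hRc : ∀ x ∈ Rg A, ∀ y ∈ Rg A, x * y = y * x := by
    have := Algebra.isMulCommutative_adjoin (R := ZMod p) (A := Module.End (ZMod p) U)
      (s := ((fun a : U ≃ₗ[ZMod p] U => (a : Module.End (ZMod p) U)) ''
        (A : Set (U ≃ₗ[ZMod p] U)))) (by
        rintro x ⟨a, ha, rfl⟩ y ⟨b, hb, rfl⟩
        have h1 := hcomm a ha b hb
        change ((a * b : U ≃ₗ[ZMod p] U) : Module.End (ZMod p) U) =
          ((b * a : U ≃ₗ[ZMod p] U) : Module.End (ZMod p) U)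
        rw [h1])
    intro x hx y hy
    exact congrArg Subtype.val (this.is_comm.comm ⟨x, hx⟩ ⟨y, hy⟩)
  letI cR : CommRing (Rg A) :=
    { (inferInstance : Ring (Rg A)) with
      mul_comm := fun x y => Subtype.ext (hRc x.1 x.2 y.1 y.2) }
  haveI : Finite (Module.End (ZMod p) U) :=
    Finite.of_injective (fun f : Module.End (ZMod p) U => (f : U → U)) DFunLike.coe_injective
  haveI : Finite (Rg A) := Subtype.finite
  haveI : Finite (U ≃ₗ[ZMod p] U) :=
    Finite.of_injective (fun f : U ≃ₗ[ZMod p] U => (f : U → U)) DFunLike.coe_injective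
  have hmem : ∀ h ∈ H, ∀ x ∈ Rg A, cj h x ∈ Rg A := fun h hh => cj_mem h (hconj h hh)
  let ψ : H →* ((Rg A) ≃ₐ[ZMod p] (Rg A)) :=
    { toFun := fun h => ce A h.1 (hmem h.1 h.2) (hmem h.1⁻¹ (H.inv_mem h.2))
      map_one' := AlgEquiv.ext fun x => rfl
      map_mul' := fun g h => AlgEquiv.ext fun x => rfl }
  have hψ : ∀ (h : H) (x : Rg A), ((ψ h x : Rg A) : Module.End (ZMod p) U) = cj h.1 x.1 :=
    fun h x => rfl
  have hN : ψ.ker = A.subgroupOf H := by
    ext h
    rw [MonoidHom.mem_ker, Subgroup.mem_subgroupOf]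
    constructor
    · intro h1
      apply hcent h.1 h.2
      intro a ha
      have h2 := hψ h ⟨(a : Module.End (ZMod p) U), coe_mem ha⟩
      rw [h1] at h2
      have h3 : (a : Module.End (ZMod p) U) =
          ((h.1 * a * h.1⁻¹ : U ≃ₗ[ZMod p] U) : Module.End (ZMod p) U) := h2
      have h4 := coe_inj h3
      calc h.1 * a = (h.1 * a * h.1⁻¹) * h.1 := by group
        _ = a * h.1 := by rw [← h4]
    · intro h1
      apply AlgEquiv.ext
      intro x
      apply Subtype.ext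
      rw [hψ]
      change cj h.1 x.1 = x.1
      unfold cj
      rw [hRc _ (coe_mem h1) _ x.2, mul_assoc, mul_inv_coe, mul_one]
  let ι : (A.subgroupOf H) →* (Rg A)ˣ :=
    { toFun := fun a =>
        { val := ⟨((a : H) : U ≃ₗ[ZMod p] U), coe_mem (Subgroup.mem_subgroupOf.1 a.2)⟩
          inv := ⟨(((a : H) : U ≃ₗ[ZMod p] U)⁻¹ : U ≃ₗ[ZMod p] U),
            coe_mem (A.inv_mem (Subgroup.mem_subgroupOf.1 a.2))⟩
          val_inv := Subtype.ext (mul_inv_coe _)
          inv_val := Subtype.ext (inv_mul_coe _) }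
      map_one' := Units.ext rfl
      map_mul' := fun a b => Units.ext rfl }
  have hι : Function.Injective ι := by
    intro a b hab
    have h1 := congrArg Units.val hab
    have h2 : (((a : H) : U ≃ₗ[ZMod p] U) : Module.End (ZMod p) U) =
        (((b : H) : U ≃ₗ[ZMod p] U) : Module.End (ZMod p) U) := congrArg Subtype.val h1
    exact Subtype.ext (Subtype.ext (coe_inj h2))
  let e' : Fin 2 → Rg A := fun i => ⟨e i, hD.mem i⟩
  have hsum : e 0 + e 1 = 1 := by
    have := hD.sum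
    rwa [Fin.sum_univ_two] at this
  obtain ⟨a, f, M, ha, hf, hcard, hNM, hHM, hMN, hfa, hle, hdvd, hc, hnc⟩ :=
    core (p := p) (R := Rg A) (G := H) ψ (A.subgroupOf H) hN ι hι e'
      (fun i h => hD.ne i (congrArg Subtype.val h))
      (fun i => Subtype.ext (hD.idem i))
      (Subtype.ext (hD.orth 0 1 (by decide)))
      (Subtype.ext hsum)
      (fun i x hx => by
        obtain ⟨y, hy, hxy⟩ := hD.fld i x.1 x.2 (fun h => hx (Subtype.ext h))
        exact ⟨⟨y, hy⟩, Subtype.ext hxy⟩)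
      (fun g i => by
        obtain ⟨j, hj⟩ := hD.perm g.1 g.2 i
        exact ⟨j, Subtype.ext hj⟩)
      (fun i j => by
        obtain ⟨h, hh, hj⟩ := hD.trans i j
        exact ⟨⟨h, hh⟩, Subtype.ext hj⟩)
  -- the block
  let V : Submodule (Rg A) U :=
    { carrier := {w | e 0 w = w}
      add_mem' := by
        intro x y hx hy
        simp only [Set.mem_ofPred_eq] at *
        rw [map_add, hx, hy]
      zero_mem' := by simp
      smul_mem' := by
        intro c x hx
        simp only [Set.mem_ofPred_eq] at *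
        change e 0 (c.1 x) = c.1 x
        have h1 := LinearMap.congr_fun (hRc _ (hD.mem 0) _ c.2) x
        have h2 : e 0 (c.1 x) = c.1 (e 0 x) := h1
        rw [h2, hx] }
  have hV : ∀ w, w ∈ V ↔ w ∈ LinearMap.range (e 0) := by
    intro w
    constructor
    · intro h
      exact ⟨w, h⟩
    · rintro ⟨x, rfl⟩
      exact LinearMap.congr_fun (hD.idem 0) x
  haveI : Nontrivial V := by
    obtain ⟨w, hw⟩ : ∃ w, e 0 w ≠ 0 := by
      by_contra hcon
      push Not at hcon
      exact hD.ne 0 (LinearMap.ext hcon)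
    refine ⟨⟨⟨e 0 w, (hV _).2 ⟨w, rfl⟩⟩, 0, fun h => hw (congrArg Subtype.val h)⟩⟩
  haveI : Finite V := Subtype.finite
  obtain ⟨b, hb, hVb⟩ := card_pow (R := Rg A) (V := V) (An (e' 0))
    (An_max (e' 0) (fun h => hD.ne 0 (congrArg Subtype.val h)) (fun x hx => by
        obtain ⟨y, hy, hxy⟩ := hD.fld 0 x.1 x.2 (fun h => hx (Subtype.ext h))
        exact ⟨⟨y, hy⟩, Subtype.ext hxy⟩))
    (by
      intro x hx w
      apply Subtype.ext
      change x.1 w.1 = 0
      have h1 : e 0 w.1 = w.1 := w.2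
      have h2 : x.1 * e 0 = 0 := congrArg Subtype.val ((mem_An _ _).1 hx)
      rw [← h1]
      exact LinearMap.congr_fun h2 w.1)
  have hq : q = p ^ (a * b) := by
    rw [← hD.card 0, pow_mul, ← hcard, ← hVb]
    exact Nat.card_congr (Equiv.subtypeEquivRight fun w => (hV w).symm)
  have hcA : Nat.card (A.subgroupOf H) = Nat.card A :=
    Nat.card_congr (Subgroup.subgroupOfEquivOfLe hAH).toEquiv
  have hcM : Nat.card (M.map H.subtype) = Nat.card M :=
    (Nat.card_congr (M.equivMapOfInjective H.subtype (Subgroup.subtype_injective _)).toEquiv).symm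
  rw [hcA] at hMN hle hdvd
  refine ⟨a, b, f, M.map H.subtype, ha, hb, hf, hq, ?_, Subgroup.map_subtype_le M, ?_, ?_, hfa,
    hle, hdvd, ?_, ?_⟩
  · intro x hx
    exact ⟨⟨x, hAH hx⟩, hNM (Subgroup.mem_subgroupOf.2 hx), rfl⟩
  · rw [hcM]; exact hHM
  · rw [hcM]; exact hMN
  · rintro x ⟨x', hx', rfl⟩ y ⟨y', hy', rfl⟩
    exact Subgroup.mem_subgroupOf.1 (hc x' hx' y' hy')
  · intro h2 h3
    obtain ⟨x, y, hxy⟩ := hnc h2 h3
    exact ⟨x.1, x.2, y.1, y.2, fun h => hxy (Subgroup.mem_subgroupOf.2 h)⟩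

end Pool.Agent.Helper79.AG
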