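import Mathlib

/-!
# AG-TWA, part 1: a commutative ring with two exchanged idempotents
-/

set_option autoImplicit false

namespace Pool.Agent.Helper79.AG

universe u v

lemma aut_fld (p : ℕ) [Fact p.Prime] (K : Type u) [Field K] [Finite K] [Algebra (ZMod p) K]
    (a : ℕ) (ha : Nat.card K = p ^ a) :
    Nat.card (K ≃ₐ[ZMod p] K) = a ∧ ∀ σ τ : K ≃ₐ[ZMod p] K, σ * τ = τ * σ := by
  haveI : FiniteDimensional (ZMod p) K := Module.finite_iff_finite.2 inferInstance
  haveI : IsGalois (ZMod p) K := inferInstance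
  have h1 : Nat.card (K ≃ₐ[ZMod p] K) = Module.finrank (ZMod p) K :=
    IsGalois.card_aut_eq_finrank (ZMod p) K
  have h2 : Nat.card K = Nat.card (ZMod p) ^ Module.finrank (ZMod p) K :=
    Module.natCard_eq_pow_finrank
  rw [Nat.card_zmod, ha] at h2
  have h3 : a = Module.finrank (ZMod p) K :=
    Nat.pow_right_injective (Fact.out : p.Prime).two_le h2
  refine ⟨by rw [h1, ← h3], ?_⟩
  haveI : IsCyclic (K ≃ₐ[ZMod p] K) := inferInstance
  intro σ τ
  exact (IsCyclic.commGroup (α := K ≃ₐ[ZMod p] K)).mul_comm σ τ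

lemma aut_fld' (p : ℕ) [Fact p.Prime] (K : Type u) [CommRing K] (hK : IsField K) [Finite K]
    [Algebra (ZMod p) K] (a : ℕ) (ha : Nat.card K = p ^ a) :
    Nat.card (K ≃ₐ[ZMod p] K) = a ∧ (∀ σ τ : K ≃ₐ[ZMod p] K, σ * τ = τ * σ) ∧
      Nat.card Kˣ = p ^ a - 1 := by
  letI := hK.toField
  refine ⟨(aut_fld p K a ha).1, (aut_fld p K a ha).2, ?_⟩
  rw [Nat.card_units, ha]

lemma card_fld (p : ℕ) [Fact p.Prime] (K : Type u) [CommRing K] (hK : IsField K) [Finite K]
    [Algebra (ZMod p) K] : ∃ a : ℕ, 0 < a ∧ Nat.card K = p ^ a := by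
  letI := hK.toField
  haveI : FiniteDimensional (ZMod p) K := Module.finite_iff_finite.2 inferInstance
  refine ⟨Module.finrank (ZMod p) K, Module.finrank_pos, ?_⟩
  have h2 : Nat.card K = Nat.card (ZMod p) ^ Module.finrank (ZMod p) K :=
    Module.natCard_eq_pow_finrank
  rwa [Nat.card_zmod] at h2

/-- the annihilator of `e` -/
def An {R : Type u} [CommRing R] (e : R) : Ideal R where
  carrier := {x | x * e = 0}
  add_mem' := by
    intro a b ha hb
    simp only [Set.mem_ofPred_eq] at *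
    rw [add_mul, ha, hb, add_zero]
  zero_mem' := by simp
  smul_mem' := by
    intro c x hx
    simp only [Set.mem_ofPred_eq, smul_eq_mul] at *
    rw [mul_assoc, hx, mul_zero]

lemma mem_An {R : Type u} [CommRing R] (e x : R) : x ∈ An e ↔ x * e = 0 := Iff.rfl

lemma An_max {R : Type u} [CommRing R] (e : R) (h0 : e ≠ 0)
    (hf : ∀ x : R, x * e ≠ 0 → ∃ y : R, x * y * e = e) : (An e).IsMaximal := by
  rw [Ideal.isMaximal_iff]
  refine ⟨by rw [mem_An, one_mul]; exact h0, ?_⟩
  intro J x hJ hx hxJ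
  obtain ⟨y, hy⟩ := hf x hx
  have h1 : 1 - x * y ∈ An e := by
    rw [mem_An, sub_mul, one_mul, hy, sub_self]
  have h2 : (1 : R) = (1 - x * y) + y * x := by ring
  rw [h2]
  exact J.add_mem (hJ h1) (J.mul_mem_left _ hxJ)

lemma card_pow {R : Type u} {V : Type v} [CommRing R] [AddCommGroup V] [Module R V] [Finite V]
    [Nontrivial V] (I : Ideal R) (hI : I.IsMaximal) (h : ∀ x ∈ I, ∀ w : V, x • w = 0) :
    ∃ b, 0 < b ∧ Nat.card V = Nat.card (R ⧸ I) ^ b := by
  letI := Ideal.Quotient.field I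
  have ht : Module.IsTorsionBySet R V (I : Set R) := by
    intro w x
    exact h x.1 x.2 w
  letI : Module (R ⧸ I) V := Module.IsTorsionBySet.module ht
  haveI : Module.Finite (R ⧸ I) V := Module.Finite.of_finite
  exact ⟨Module.finrank (R ⧸ I) V, Module.finrank_pos, Module.natCard_eq_pow_finrank⟩

lemma An_map {p : ℕ} {R : Type u} [CommRing R] [Algebra (ZMod p) R]
    (σ : R ≃ₐ[ZMod p] R) (e e' : R) (h : σ e = e') :
    An e' = Ideal.map (σ : R →+* R) (An e) := by
  ext x
  constructor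
  · intro hx
    rw [mem_An] at hx
    have h1 : σ.symm x ∈ An e := by
      rw [mem_An]
      apply σ.injective
      rw [map_mul, map_zero, h, AlgEquiv.apply_symm_apply, hx]
    have h2 := Ideal.mem_map_of_mem (σ : R →+* R) h1
    have h3 : (σ : R →+* R) (σ.symm x) = x := σ.apply_symm_apply x
    rwa [h3] at h2
  · intro hx
    have h1 : Ideal.map (σ : R →+* R) (An e) ≤ An e' := by
      rw [Ideal.map_le_iff_le_comap]
      intro y hy
      rw [Ideal.mem_comap, mem_An]
      rw [mem_An] at hy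
      have : σ y * σ e = 0 := by rw [← map_mul, hy, map_zero]
      rw [h] at this
      exact this
    exact h1 hx

/-- the induced automorphism -/
noncomputable def ind {p : ℕ} {R : Type u} [CommRing R] [Algebra (ZMod p) R] (e : R)
    (σ : R ≃ₐ[ZMod p] R) (h : σ e = e) : (R ⧸ An e) ≃ₐ[ZMod p] (R ⧸ An e) :=
  Ideal.quotientEquivAlg (An e) (An e) σ (An_map σ e e h)

lemma ind_mk {p : ℕ} {R : Type u} [CommRing R] [Algebra (ZMod p) R] (e : R)
    (σ : R ≃ₐ[ZMod p] R) (h : σ e = e) (x : R) :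
    ind e σ h (Ideal.Quotient.mk (An e) x) = Ideal.Quotient.mk (An e) (σ x) := rfl

end Pool.Agent.Helper79.AG
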